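import Mathlib
import Pool.Agent.TH504.VY.Main

/-!
# The noncommutative variational Hodge conjecture for products with abelian schemes

`B` is the universal covering of the base, `A → B` is a fibre product (repetitions allowed) of
families of principally polarized abelian varieties, `Y → B` is a family of smooth projective
varieties such that `A` moves relative to `Y`, and `C` is a `B`-linear admissible subcategory of
`D_perf(Y)`. The noncommutative variational Hodge conjecture for `D_perf(A) ⊠_B C`, an admissible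
subcategory of `D_perf(A ×_B Y)`, follows from the one for `C`.
-/

set_option autoImplicit false

namespace Pool.Agent.Results.MP_298761_ag.TimesAbelianSchemes

open Matrix Module Pool.Agent.H204R3.CM Pool.Agent.H194R3.CM Pool.Agent.W437.HD
  Pool.Agent.W437.HP Pool.Agent.TH131.GHC Pool.Agent.TH504.VY

/-- A `B`-linear admissible subcategory `C` of `D_perf(Y)`: the action `e` of the projection functor
on the rational cohomology of the fibres `Y_b`. It is flat and idempotent and commutes with the Hodge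
operators of all fibres (it preserves the differences `p - q` of the types `(p, q)`). -/
structure AdmissibleFamily {B : Type} {v : ℕ} (Y : B → Coh v) where
  /-- the action of the projection -/
  e : (Fin v → ℚ) →ₗ[ℚ] (Fin v → ℚ)
  idem : ∀ x, e (e x) = e x
  hodge : ∀ b, (Y b).z * (LinearMap.toMatrix' e).map (algebraMap ℚ ℂ) =
    (LinearMap.toMatrix' e).map (algebraMap ℚ ℂ) * (Y b).z

/-- The operator `1 × e` on the cohomology of `A_b × Y_b`: the action of the projection functor to the
admissible subcategory `D_perf(A) ⊠ C` of `D_perf(A ×_B Y)`. -/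
def timesOp {W : Type} [AddCommGroup W] [Module ℚ W] {v : ℕ}
    (e : (Fin v → ℚ) →ₗ[ℚ] (Fin v → ℚ)) (F : HAZ W v) : HAZ W v :=
  fun k => e.compAlternatingMap (F k)

section defs

variable {B : Type} {v : ℕ} {Y : B → Coh v}

/-- The noncommutative variational Hodge conjecture for `C`: a flat class `x` of `C` which is a Hodge
class on all fibres and is the class of an element of `K_0` of the fibre of `C` at one point (the
projection of an algebraic class) is the class of such an element at all points. -/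
def VariationalFor (C : AdmissibleFamily Y) (algY : B → Submodule ℚ (Fin v → ℚ)) : Prop :=
  ∀ x, (∀ b, IsHodgeOn (Y b) x) → C.e x = x → ∀ b₀, (∃ y ∈ algY b₀, C.e y = x) →
    ∀ b, ∃ y ∈ algY b, C.e y = x

variable {W T : Type} [AddCommGroup W] [Module ℚ W] [AddCommGroup T] [Module ℂ T]
  (per : B → W →+ T)

/-- The noncommutative variational Hodge conjecture for `D_perf(A) ⊠ C`. -/
def VariationalForTimes (C : AdmissibleFamily Y) (alg : B → Submodule ℚ (HAZ W v)) : Prop :=
  ∀ F, (∀ b, IsHodgeOnProduct (per b) (Y b) F) → timesOp C.e F = F → ∀ b₀,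
    (∃ G ∈ alg b₀, timesOp C.e G = F) → ∀ b, ∃ G ∈ alg b, timesOp C.e G = F

/-- The span of the products `f ⊗ x`, where `f` is a combination of products of divisor classes on
all `A_b` and `x` is a flat class of `C` which is a Hodge class on all fibres. -/
def productsFor (C : AdmissibleFamily Y) : Submodule ℚ (HAZ W v) :=
  Submodule.span ℚ {G | ∃ (k : ℕ) (f : W [⋀^Fin k]→ₗ[ℚ] ℚ) (x : Fin v → ℚ),
    (∀ b, f ∈ divisorSpan (per b) k) ∧ (∀ b, IsHodgeOn (Y b) x) ∧ C.e x = x ∧ G = cross f x}

/-- Each flat class of `D_perf(A) ⊠ C` which is a Hodge class on all fibres is in `productsFor`. -/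
def HodgeAreProductsFor (C : AdmissibleFamily Y) : Prop :=
  ∀ F, (∀ b, IsHodgeOnProduct (per b) (Y b) F) → timesOp C.e F = F → F ∈ productsFor per C

/-- The restriction of an algebraic class on `A_b × Y_b` to `0 × Y_b` is algebraic. -/
def RestrictClosed (S : CycleSystem per v) : Prop := ∀ b, ∀ F ∈ S.alg b, F 0 ![] ∈ S.algY b

end defs

/-- The statement. -/
def Statement : Prop :=
  ∀ (ι B : Type) [Nonempty B] (g : ι → ℕ) (Z : ∀ i, B → Matrix (Fin (g i)) (Fin (g i)) ℂ)
    (n : ℕ) (c : Fin n → ι) (v : ℕ) (Y : B → Coh v), MovesRelative Z Y →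
    ∀ C : AdmissibleFamily Y, HodgeAreProductsFor (fibreProduct Z c) C ∧
      ∀ S : CycleSystem (fibreProduct Z c) v,
        (VariationalFor C S.algY → VariationalForTimes (fibreProduct Z c) C S.alg) ∧
        (RestrictClosed (fibreProduct Z c) S →
          (VariationalForTimes (fibreProduct Z c) C S.alg ↔ VariationalFor C S.algY))

section proof

variable {W T : Type} [AddCommGroup W] [Module ℚ W] [AddCommGroup T] [Module ℂ T]
  {v : ℕ}

theorem timesOp_add (e : (Fin v → ℚ) →ₗ[ℚ] (Fin v → ℚ)) (F G : HAZ W v) :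
    timesOp e (F + G) = timesOp e F + timesOp e G := by
  funext k
  refine AlternatingMap.ext fun w => ?_
  change e ((F k + G k) w) = e (F k w) + e (G k w)
  rw [AlternatingMap.add_apply, map_add]

theorem timesOp_smul (e : (Fin v → ℚ) →ₗ[ℚ] (Fin v → ℚ)) (r : ℚ) (F : HAZ W v) :
    timesOp e (r • F) = r • timesOp e F := by
  funext k
  refine AlternatingMap.ext fun w => ?_
  change e ((r • F k) w) = r • e (F k w)
  rw [AlternatingMap.smul_apply, map_smul]

/-- `1 × e` as a linear map. -/
def timesL (e : (Fin v → ℚ) →ₗ[ℚ] (Fin v → ℚ)) : HAZ W v →ₗ[ℚ] HAZ W v where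
  toFun := timesOp e
  map_add' := timesOp_add e
  map_smul' := timesOp_smul e

theorem timesOp_idem {e : (Fin v → ℚ) →ₗ[ℚ] (Fin v → ℚ)} (he : ∀ x, e (e x) = e x)
    (F : HAZ W v) : timesOp e (timesOp e F) = timesOp e F := by
  funext k
  refine AlternatingMap.ext fun w => ?_
  change e (e (F k w)) = e (F k w)
  rw [he]

theorem timesOp_cross (e : (Fin v → ℚ) →ₗ[ℚ] (Fin v → ℚ)) {k : ℕ} (f : W [⋀^Fin k]→ₗ[ℚ] ℚ)
    (x : Fin v → ℚ) : timesOp e (cross f x) = cross f (e x) := by
  funext l
  by_cases hl : l = k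
  · subst hl
    refine AlternatingMap.ext fun w => ?_
    change e ((cross f x) l w) = (cross f (e x)) l w
    rw [cross, cross, Pi.single_eq_same, Pi.single_eq_same]
    change e (f w • x) = f w • e x
    rw [map_smul]
  · refine AlternatingMap.ext fun w => ?_
    change e ((cross f x) l w) = (cross f (e x)) l w
    rw [cross, cross, Pi.single_eq_of_ne hl, Pi.single_eq_of_ne hl, AlternatingMap.zero_apply,
      map_zero]

theorem fibreIntegral_timesOp (e : (Fin v → ℚ) →ₗ[ℚ] (Fin v → ℚ)) {k j : ℕ}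
    (d : Basis (Fin k ⊕ Fin j) ℚ W) (F : HAZ W v) (β : W [⋀^Fin j]→ₗ[ℚ] ℚ) :
    fibreIntegral d (timesOp e F) β = e (fibreIntegral d F β) := by
  rw [fibreIntegral, fibreIntegral, map_sum]
  refine Finset.sum_congr rfl fun σ _ => ?_
  rw [map_zsmul, map_smul]
  rfl

/-- The projection maps Hodge classes to Hodge classes. -/
theorem hodge_op {B : Type} {Y : B → Coh v} (C : AdmissibleFamily Y) {b : B} {x : Fin v → ℚ}
    (hx : IsHodgeOn (Y b) x) : IsHodgeOn (Y b) (C.e x) := by
  have h1 : cv (C.e x) = (LinearMap.toMatrix' C.e).map (algebraMap ℚ ℂ) *ᵥ cv x := by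
    funext b
    have h2 : C.e x = (LinearMap.toMatrix' C.e) *ᵥ x := (LinearMap.toMatrix'_mulVec C.e x).symm
    change ((C.e x b : ℚ) : ℂ) = _
    rw [h2]
    simp only [Matrix.mulVec, dotProduct, Matrix.map_apply, cv, Rat.cast_sum, Rat.cast_mul,
      eq_ratCast]
  change (Y b).z *ᵥ cv (C.e x) = 0
  rw [h1, Matrix.mulVec_mulVec, C.hodge, ← Matrix.mulVec_mulVec]
  have h2 : (Y b).z *ᵥ cv x = 0 := hx
  rw [h2, Matrix.mulVec_zero]

theorem one_mem_divisorSpan (per : W →+ T) :
    (AlternatingMap.constOfIsEmpty ℚ W (Fin 0) (1 : ℚ)) ∈ divisorSpan per 0 := by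
  refine Submodule.subset_span ⟨0, Equiv.equivOfIsEmpty _ _, Fin.elim0, fun l => l.elim0, ?_⟩
  intro w
  rw [AlternatingMap.constOfIsEmpty_apply]
  have h : (Finset.univ : Finset (Equiv.Perm (Fin 0))) = {1} := by decide
  rw [h, Finset.sum_singleton]
  simp

theorem hodge_one (per : W →+ T) {V : Coh v} {x : Fin v → ℚ} (hx : IsHodgeOn V x) :
    IsHodgeOnProduct per V (cross (AlternatingMap.constOfIsEmpty ℚ W (Fin 0) (1 : ℚ)) x) := by
  refine ⟨Pi.single 0 (AlternatingMap.constOfIsEmpty ℝ T (Fin 0) (cv x)), ?_, ?_⟩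
  · intro k w
    by_cases hk : k = 0
    · subst hk
      rw [cross, Pi.single_eq_same, Pi.single_eq_same]
      change cv x = cv ((1 : ℚ) • x)
      rw [one_smul]
    · rw [cross, Pi.single_eq_of_ne hk, Pi.single_eq_of_ne hk]
      rw [AlternatingMap.zero_apply, AlternatingMap.zero_apply]
      funext b
      simp only [cv, Pi.zero_apply, Rat.cast_zero]
  · intro k u
    by_cases hk : k = 0
    · subst hk
      rw [Pi.single_eq_same]
      change (-Complex.I) • ∑ l : Fin 0, _ + V.z *ᵥ cv x = ((0 : ℤ) : ℂ) • cv x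
      have h2 : V.z *ᵥ cv x = 0 := hx
      rw [h2, Finset.univ_eq_empty, Finset.sum_empty, smul_zero, Int.cast_zero, zero_smul, add_zero]
    · rw [Pi.single_eq_of_ne hk]
      simp only [AlternatingMap.zero_apply, Finset.sum_const_zero, smul_zero, Matrix.mulVec_zero,
        add_zero]

/-- The system of the classes of elements of `K_0` of the fibres of `D_perf(A) ⊠ C` and of `C`. -/
def system {B : Type} {Y : B → Coh v} {per : B → W →+ T} (C : AdmissibleFamily Y)
    (S : CycleSystem per v) : CycleSystem per v where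
  alg b := (S.alg b).map (timesL C.e)
  algY b := (S.algY b).map C.e
  cross_mem := by
    rintro b k f hf x ⟨y, hy, rfl⟩
    exact ⟨cross f y, S.cross_mem b k f hf y hy, timesOp_cross C.e f y⟩
  integral_mem := by
    rintro b F ⟨G, hG, rfl⟩ k j d β hβ
    exact ⟨fibreIntegral d G β, S.integral_mem b G hG k j d β hβ,
      (fibreIntegral_timesOp C.e d G β).symm⟩

end proof

theorem result : Statement := by
  intro ι B _ g Z n c v Y hmov C
  obtain ⟨hP, hV⟩ := main Z c Y hmov
  have hfw : ∀ S : CycleSystem (fibreProduct Z c) v, VariationalFor C S.algY →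
      VariationalForTimes (fibreProduct Z c) C S.alg := by
    intro S h F hF hfix b₀ hb₀ b
    refine hV (system C S) ?_ F hF b₀ ?_ b
    · rintro x hx b₁ ⟨y, hy, hyx⟩ b₂
      have h1 : C.e x = x := by rw [← hyx, C.idem]
      obtain ⟨z, hz, hzx⟩ := h x hx h1 b₁ ⟨y, hy, hyx⟩ b₂
      exact ⟨z, hz, hzx⟩
    · obtain ⟨G, hG, hGF⟩ := hb₀
      exact ⟨G, hG, hGF⟩
  refine ⟨?_, fun S => ⟨hfw S, fun hres => ⟨fun h => ?_, hfw S⟩⟩⟩
  · intro F hF hfix
    have h1 : F ∈ productClasses (fibreProduct Z c) Y := hP F hF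
    rw [← hfix]
    clear hfix hF
    induction h1 using Submodule.span_induction with
    | mem F hF =>
      obtain ⟨k, f, x, hf, hx, rfl⟩ := hF
      rw [timesOp_cross]
      exact Submodule.subset_span ⟨k, f, C.e x, hf, fun b => hodge_op C (hx b), C.idem x, rfl⟩
    | zero =>
      have h0 : timesL C.e (0 : HAZ (∀ j, Fin (g (c j)) ⊕ Fin (g (c j)) → ℚ) v) = 0 := map_zero _
      change timesL C.e (0 : HAZ (∀ j, Fin (g (c j)) ⊕ Fin (g (c j)) → ℚ) v) ∈ _
      rw [h0]
      exact Submodule.zero_mem _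
    | add F G _ _ hF hG =>
      rw [timesOp_add]
      exact Submodule.add_mem _ hF hG
    | smul r F _ hF =>
      rw [timesOp_smul]
      exact Submodule.smul_mem _ _ hF
  · rintro x hx hex b₀ ⟨y, hy, hyx⟩ b
    obtain ⟨G, hG, hGe⟩ := h (cross (AlternatingMap.constOfIsEmpty ℚ _ (Fin 0) (1 : ℚ)) x)
      (fun b => hodge_one _ (hx b)) (by rw [timesOp_cross, hex]) b₀
      ⟨cross (AlternatingMap.constOfIsEmpty ℚ _ (Fin 0) (1 : ℚ)) y,
        S.cross_mem b₀ 0 _ (one_mem_divisorSpan _) y hy, by rw [timesOp_cross, hyx]⟩ b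
    refine ⟨G 0 ![], hres b G hG, ?_⟩
    have h1 := congrArg (fun F : HAZ (∀ j, Fin (g (c j)) ⊕ Fin (g (c j)) → ℚ) v => F 0 ![]) hGe
    change C.e (G 0 ![]) = _ at h1
    rw [h1]
    change (cross (AlternatingMap.constOfIsEmpty ℚ _ (Fin 0) (1 : ℚ)) x : HAZ (∀ j, Fin (g (c j)) ⊕ Fin (g (c j)) → ℚ) v) 0 ![] = x
    rw [cross, Pi.single_eq_same]
    change (1 : ℚ) • x = x
    rw [one_smul]

end Pool.Agent.Results.MP_298761_ag.TimesAbelianSchemes
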