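import Pool.Agent.V11219.NcMain
import Pool.Agent.V11219.NcDefs2

/-!
# The variational Hodge conjecture for admissible subcategories: comparison of ranks

Let `S` be a complex variety with a point `0`, which we may suppose to be smooth. For smooth projective
families `A` over (dense open subsets of) `S` consider the cohomology of the fibre `A_0`, with coefficients
extended to an algebraically closed field, with the action of `Γ = π_1(S, 0)`, and as algebraic classes
the classes of the relative cycles, i.e. of the cycles on the geometric generic fibre. This is a Weil
cohomology theory `W` on varieties over the algebraic closure of the function field of `S`, with an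
action of `Γ` with the formal properties of a Galois action, with the character `χ = 1` (the theorem is
for every such theory).

Let `H` and `C` be two systems of classes (`ClassSystem`): for every variety `A` spaces `H(A)`, `C(A)` of
cohomology classes, containing the classes of algebraic cycles and stable under products, pull-backs
and push-forwards, such as the combinations of Hodge classes, of absolute Hodge classes, of motivated
classes or of algebraic classes. `Included H C A` is the statement `H(A) ⊆ C(A)`. On the products
considered below the space `H(A)` is supposed to be spanned by elements of `H(A)` which are multiplied
by powers of `χ(g)` by all `g` in a subgroup of finite index of `Γ` (`SemiOn`); nothing is assumed on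
`C`.

The example for this problem: `H(A)` is the space spanned by the classes which are invariant under a
subgroup of finite index of `Γ` and algebraic on the fibre `A_0`, and `C(A)` the space spanned by the
classes of relative cycles, which are algebraic on all fibres. For an `S`-linear admissible
subcategory `𝒞` of `D_perf(T)` let `P` be the operator on the even cohomology of `T_0` (the topological
K-theory with extended coefficients) defined by the projection onto `𝒞`: if a section of the local
system of the `K^top_0(𝒞_s)` is algebraic at `0`, its value at `0` is in `P(H(T))`, and the elements of
`P(C(T))` come from relative objects of `𝒞`. So `FactorsLe (H T) (C T)`, the statement that `P(H(T)) ⊆ P(C(T))` for all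
operators `P`, gives the variational Hodge conjecture for all these `𝒞`.

All families `X_i` (`i` in a finite set) and `Y_b` (`b` in a finite set) have odd relative dimension,
numerical and homological equivalence coincide for them (for example curves, hypersurfaces, complete
intersections) and for the powers of the `X_i`, and their transcendental cohomology `T(X_i)`, `T(Y_b)`
(the orthogonal complement of the algebraic classes) is concentrated in the middle degree; the `Y_b`
have the same dimension, the `T(X_i)` are irreducible under all subgroups of finite index and no two of
them are isomorphic up to scalars. **Nothing else is assumed on the `Y_b`**, for example they may be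
arbitrary families of curves, and nothing at all is assumed on `Z`.

Let `N` be the set of the `g ∈ Γ` with `χ(g) = 1` which act trivially on the cohomology of `Z` and with
`(g - 1) ^ 2 = 0` on all `T(X_j)` and all `T(Y_b)` (for instance local monodromy operators at points of the
boundary where `Z` does not degenerate and the `X_j`, `Y_b` acquire ordinary double points, or are
curves with semistable reduction; **all** of them may degenerate). Assume for every `i`:

* **(small defects)** some `g ∈ N` has defects on `T(X_i)` without a common prime factor, or the defect
  two; here the defects of `g` are the rank of `g - 1` on `T(X_i)` and the multiplicities of the nonzero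
  eigenvalues of `(g - 1) (g' - 1)` on `T(X_i)`, for `g' ∈ N`. (Or: the conjugates of some `g ∈ N` act
  irreducibly on `T(X_i)` and the defects of all elements of `N` have no common prime factor.)
* **(larger rank)** for some `g ∈ N` the rank of `g - 1` on `T(X_i)` is larger than the sum of the
  ranks of `g - 1` on the `T(Y_b)`.

Let `Z₁` be a fibre product of `Z` with arbitrary powers of the `Y_b`, and `T` a fibre product of `Z₁` with
arbitrary powers of the `X_i`. Then the following are **equivalent**: `P(H(T)) ⊆ P(C(T))` for all
operators `P`; `H(Z₁) ⊆ C(Z₁)`. So the variational Hodge conjecture holds for all admissible subcategories
of `D_perf(T)` as soon as it holds for the family `Z₁`, and conversely.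

Proof. By the theory of extremal elements of Lie algebras (see `MP_0d42ed_ag.SemistableProducts`) a
potentially semi-invariant class on the product of a power of `X_i` with `A` is a combination of
products `m_l x_l` of algebraic classes `m_l` of the power, linearly independent, with classes `x_l` of
`A`. As numerical and homological equivalence coincide for the power of `X_i`, the intersection form on
its algebraic classes is nondegenerate, so `x_l` is the push-forward of the product of the class with an
algebraic class of the power, and belongs to `H(A)` if the class belongs to `H`.
-/

universe u

namespace Pool.Agent.Results.MP_298761_ag.TwoSystems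

open Pool.Agent.H914 Pool.Agent.H281R3.HT Pool.Agent.TH125.Gal Pool.Agent.V11219.Min
  Pool.Agent.V11219.Cls

/-- **Classes on direct factors of products with powers, comparison of ranks.** -/
theorem result {k : Type u} [Field k] {𝒱 : VarClass k} {ops : CycleOps 𝒱}
    (W : WeilCohomology.{u, 0} ops) [IsAlgClosed W.K] {Γ : Type} [Group Γ] (χ : CharOf W Γ)
    (H C : Classes W) (hH : ClassSystem W H) (hC : ClassSystem W C)
    {ι β : Type} [Finite ι] [Fintype β] (X : ι → GVar W Γ) (Y : β → GVar W Γ) (d : ℕ)
    (Z : GVar W Γ) (h : FamilyOver χ X Y d Z) (hD : ∀ i, PowersHomEqNum (X i)) (S' : Set β)
    (Z₁ : GVar W Γ) (hZ : Tower Y Z S' Z₁) (hs : ∀ S A, Tower X Z₁ S A → SemiOn χ H A)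
    (S : Set ι) (T : GVar W Γ) (hT : Tower X Z₁ S T) :
    FactorsLe (H T.X) (C T.X) ↔ SubLe (H Z₁.X) (C Z₁.X) := by
  classical
  have := Fintype.ofFinite ι
  exact mapLe_iff.trans
    (two_over hH hC h.over hD (hZ.gTower fun b => (h.good' b).1) hs hT)

end Pool.Agent.Results.MP_298761_ag.TwoSystems
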